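import Pool.Agent.Helper92.FR.GoalsC

/-!
# FR-PTC: one cutting plane step in polynomial time
-/

namespace Pool.Agent.Helper73.FR

open Pool.Agent.Helper81.CC Pool.Agent.Bin Pool.Agent.Helper92.VP Pool.Agent.Helper92.FR

variable {α : Type} [ToData α]

@[fun_prop] theorem PT_dot {x y : α → List Qn} (hx : PolyTime x) (hy : PolyTime y) :
    PolyTime (fun a => dot (x a) (y a)) := by
  unfold dot
  fun_prop

@[fun_prop] theorem PT_invNat {n : α → ℕ} (hn : PolyTime n) :
    PolyTime (fun a => invNat (n a)) := by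
  unfold invNat
  fun_prop

@[fun_prop] theorem PT_qNat {n : α → ℕ} (hn : PolyTime n) :
    PolyTime (fun a => qNat (n a)) := by
  unfold qNat
  fun_prop

@[fun_prop] theorem PT_qsc {n : α → ℕ} (hn : PolyTime n) :
    PolyTime (fun a => qsc (n a)) := by
  unfold qsc
  fun_prop

@[fun_prop] theorem PT_vert {st : α → Cst} {i : α → ℕ} (hst : PolyTime st) (hi : PolyTime i) :
    PolyTime (fun a => vert (st a) (i a)) := by
  unfold vert
  fun_prop

@[fun_prop] theorem PT_cen {d : α → ℕ} {st : α → Cst} (hd : PolyTime d) (hst : PolyTime st) :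
    PolyTime (fun a => cen (d a) (st a)) := by
  unfold cen
  fun_prop

@[fun_prop] theorem PT_gam {d : α → ℕ} {st : α → Cst} {g : α → List Qn} {i : α → ℕ}
    (hd : PolyTime d) (hst : PolyTime st) (hg : PolyTime g) (hi : PolyTime i) :
    PolyTime (fun a => gam (d a) (st a) (g a) (i a)) := by
  unfold gam
  fun_prop

@[fun_prop] theorem PT_amin {d : α → ℕ} {st : α → Cst} {g : α → List Qn}
    (hd : PolyTime d) (hst : PolyTime st) (hg : PolyTime g) :
    PolyTime (fun a => amin (d a) (st a) (g a)) := by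
  unfold amin
  fun_prop

@[fun_prop] theorem PT_nfac0 {d : α → ℕ} {st : α → Cst} {g : α → List Qn} {i : α → ℕ}
    (hd : PolyTime d) (hst : PolyTime st) (hg : PolyTime g) (hi : PolyTime i) :
    PolyTime (fun a => nfac0 (d a) (st a) (g a) (i a)) := by
  unfold nfac0
  fun_prop

@[fun_prop] theorem PT_nfac {d : α → ℕ} {st : α → Cst} {g : α → List Qn} {i : α → ℕ}
    (hd : PolyTime d) (hst : PolyTime st) (hg : PolyTime g) (hi : PolyTime i) :
    PolyTime (fun a => nfac (d a) (st a) (g a) (i a)) := by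
  unfold nfac
  fun_prop

@[fun_prop] theorem PT_cut {d : α → ℕ} {st : α → Cst} {g : α → List Qn}
    (hd : PolyTime d) (hst : PolyTime st) (hg : PolyTime g) :
    PolyTime (fun a => cut (d a) (st a) (g a)) := by
  unfold cut
  fun_prop

@[fun_prop] theorem PT_cini {d B : α → ℕ} (hd : PolyTime d) (hB : PolyTime B) :
    PolyTime (fun a => cini (d a) (B a)) := by
  unfold cini
  fun_prop

theorem ptc : PtcStmt := by
  intro α _ d B st g hd hB hst hg
  exact ⟨PT_cut hd hst hg, PT_cini hd hB, PT_cen hd hst⟩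

end Pool.Agent.Helper73.FR
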